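import Pool.Agent.X248.Core.Defs
import Pool.Agent.X248.Theta
import Pool.Agent.H495R3.Tri

/-!
# Core and nucleus: membership
-/

set_option autoImplicit false

namespace Pool.Agent.X248.Core

open Pool.Agent.NPC Pool.Agent.H622R2
open Pool.Agent.H495R3 (adjB adjB_iff)

/-- The query: is there an independent set `I` with `|N(I)| + a ≤ |I| + n` and `b ≤ |I|` which does
not contain the vertex `v`? -/
def Qry (k : List (List Bool) × ℕ × ℕ × ℕ) : Prop :=
  ∃ I : Finset (Fin k.1.length), (matGraph k.1).IsIndepSet (I : Set (Fin k.1.length)) ∧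
    (nbhd (matGraph k.1) I).card + k.2.1 ≤ I.card + k.1.length ∧ k.2.2.1 ≤ I.card ∧
    ∀ h : k.2.2.2 < k.1.length, (⟨k.2.2.2, h⟩ : Fin k.1.length) ∉ I

/-- The set with a characteristic list. -/
def setOf (n : ℕ) (s : List Bool) : Finset (Fin n) :=
  Finset.univ.filter fun i => s.getD i.1 false = true

/-- The size. -/
def cnt (n : ℕ) (p : ℕ → Bool) : ℕ := ((List.range n).filter p).length

theorem card_filter_fin (n : ℕ) (p : ℕ → Bool) :
    (Finset.univ.filter fun i : Fin n => p i.1 = true).card = cnt n p := by
  have h1 : (Finset.univ.filter fun i : Fin n => p i.1 = true).map Fin.valEmbedding =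
      ((List.range n).filter p).toFinset := by
    ext x
    simp only [Finset.mem_map, Finset.mem_filter, Finset.mem_univ, true_and, Fin.valEmbedding_apply,
      List.mem_toFinset, List.mem_filter, List.mem_range]
    constructor
    · rintro ⟨i, hi, rfl⟩
      exact ⟨i.2, hi⟩
    · rintro ⟨hx, hp⟩
      exact ⟨⟨x, hx⟩, hp, rfl⟩
  have h2 := congrArg Finset.card h1
  rw [Finset.card_map, List.toFinset_card_of_nodup (List.nodup_range.filter _)] at h2
  exact h2

/-- Membership in the neighbourhood. -/
def nbB (M : List (List Bool)) (s : List Bool) (j : ℕ) : Bool :=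
  (List.range M.length).any fun i => s.getD i false && adjB M i j

/-- The verifier. -/
def ver (p : (List (List Bool) × ℕ × ℕ × ℕ) × List Bool) : Bool :=
  ((List.range p.1.1.length).all fun i => (List.range p.1.1.length).all fun j =>
    !(p.2.getD i false && p.2.getD j false && adjB p.1.1 i j)) &&
  decide (cnt p.1.1.length (nbB p.1.1 p.2) + p.1.2.1 ≤
    cnt p.1.1.length (fun i => p.2.getD i false) + p.1.1.length) &&
  decide (p.1.2.2.1 ≤ cnt p.1.1.length (fun i => p.2.getD i false)) &&
  !(p.2.getD p.1.2.2.2 false)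

theorem ver_poly : Poly ver := by
  unfold ver cnt nbB
  have hr : Poly (fun p : (List (List Bool) × ℕ × ℕ × ℕ) × List Bool =>
      List.range p.1.1.length) := Poly.range_length (by fun_prop)
  have h1 : Poly (fun p : (List (List Bool) × ℕ × ℕ × ℕ) × List Bool =>
      (List.range p.1.1.length).filter fun j => (List.range p.1.1.length).any fun i =>
        p.2.getD i false && adjB p.1.1 i j) := by
    refine Poly.filter (p := fun (p : (List (List Bool) × ℕ × ℕ × ℕ) × List Bool) j =>
      (List.range p.1.1.length).any fun i => p.2.getD i false && adjB p.1.1 i j) hr ?_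
    have hr2 : Poly (fun p : ((List (List Bool) × ℕ × ℕ × ℕ) × List Bool) × ℕ =>
      List.range p.1.1.1.length) := Poly.range_length (by fun_prop)
    fun_prop
  have h2 : Poly (fun p : (List (List Bool) × ℕ × ℕ × ℕ) × List Bool =>
      (List.range p.1.1.length).all fun i => (List.range p.1.1.length).all fun j =>
    !(p.2.getD i false && p.2.getD j false && adjB p.1.1 i j)) := by
    refine Poly.all (p := fun (p : (List (List Bool) × ℕ × ℕ × ℕ) × List Bool) i =>
      (List.range p.1.1.length).all fun j =>
        !(p.2.getD i false && p.2.getD j false && adjB p.1.1 i j)) hr ?_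
    have hr2 : Poly (fun p : ((List (List Bool) × ℕ × ℕ × ℕ) × List Bool) × ℕ =>
      List.range p.1.1.1.length) := Poly.range_length (by fun_prop)
    fun_prop
  fun_prop

theorem setOf_card (n : ℕ) (s : List Bool) :
    (setOf n s).card = cnt n (fun i => s.getD i false) := by
  rw [← card_filter_fin]
  rfl

theorem nbhd_card (M : List (List Bool)) (s : List Bool) :
    (nbhd (matGraph M) (setOf M.length s)).card = cnt M.length (nbB M s) := by
  classical
  rw [← card_filter_fin]
  congr 1
  ext j
  simp only [nbhd, setOf, Finset.mem_filter, Finset.mem_univ, true_and, nbB, List.any_eq_true,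
    List.mem_range, Bool.and_eq_true]
  constructor
  · rintro ⟨i, hi, h⟩
    exact ⟨i.1, i.2, hi, (adjB_iff M i j).2 h⟩
  · rintro ⟨i, hi, h1, h2⟩
    exact ⟨⟨i, hi⟩, h1, (adjB_iff M ⟨i, hi⟩ j).1 h2⟩

theorem setOf_indep (M : List (List Bool)) (s : List Bool) :
    (matGraph M).IsIndepSet (setOf M.length s : Set (Fin M.length)) ↔
      ∀ i < M.length, ∀ j < M.length,
        (s.getD i false && s.getD j false && adjB M i j) = false := by
  constructor
  · intro h i hi j hj
    by_contra hcon
    rw [Bool.not_eq_false, Bool.and_eq_true, Bool.and_eq_true] at hcon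
    have h1 := (adjB_iff M ⟨i, hi⟩ ⟨j, hj⟩).1 hcon.2
    refine h (x := ⟨i, hi⟩) ?_ (y := ⟨j, hj⟩) ?_ h1.ne h1
    · simp only [setOf, Finset.coe_filter, Finset.mem_univ, true_and, Set.mem_setOf_eq]
      exact hcon.1.1
    · simp only [setOf, Finset.coe_filter, Finset.mem_univ, true_and, Set.mem_setOf_eq]
      exact hcon.1.2
  · intro h i hi j hj _ hadj
    simp only [setOf, Finset.coe_filter, Finset.mem_univ, true_and, Set.mem_setOf_eq] at hi hj
    have h1 := h i i.2 j j.2
    rw [hi, hj, (adjB_iff M i j).2 hadj] at h1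
    simp at h1

open Classical in
/-- The characteristic list. -/
noncomputable def charL {n : ℕ} (I : Finset (Fin n)) : List Bool :=
  (List.range n).map fun x => decide (∃ h : x < n, (⟨x, h⟩ : Fin n) ∈ I)

theorem charL_length {n : ℕ} (I : Finset (Fin n)) : (charL I).length = n := by simp [charL]

theorem charL_getD {n : ℕ} (I : Finset (Fin n)) (x : ℕ) :
    (charL I).getD x false = true ↔ ∃ h : x < n, (⟨x, h⟩ : Fin n) ∈ I := by
  classical
  by_cases hx : x < n
  · unfold charL
    rw [List.getD_eq_getElem _ _ (by simpa using hx), List.getElem_map, List.getElem_range,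
      decide_eq_true_eq]
  · rw [List.getD_eq_default _ _ (by rw [charL_length]; omega)]
    simp [hx]

theorem setOf_charL {n : ℕ} (I : Finset (Fin n)) : setOf n (charL I) = I := by
  ext i
  simp only [setOf, Finset.mem_filter, Finset.mem_univ, true_and, charL_getD]
  exact ⟨fun ⟨_, h⟩ => h, fun h => ⟨i.2, h⟩⟩

theorem inNP_qry : InNPP Qry := by
  refine inNPP_of ver_poly (Polynomial.C 4 * Polynomial.X + Polynomial.C 4) fun k => ?_
  have key : ∀ s : List Bool, ver (k, s) = true ↔
      ((matGraph k.1).IsIndepSet (setOf k.1.length s : Set (Fin k.1.length)) ∧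
      (nbhd (matGraph k.1) (setOf k.1.length s)).card + k.2.1 ≤
        (setOf k.1.length s).card + k.1.length ∧ k.2.2.1 ≤ (setOf k.1.length s).card ∧
      s.getD k.2.2.2 false = false) := by
    intro s
    rw [setOf_indep, nbhd_card, setOf_card]
    unfold ver
    simp only [Bool.and_eq_true, List.all_eq_true, List.mem_range, decide_eq_true_eq,
      Bool.not_eq_true', and_assoc]
  constructor
  · rintro ⟨I, h1, h2, h3, h4⟩
    refine ⟨charL I, ?_, ?_⟩
    · have e1 := Pool.Agent.X248.Core.charL_length I
      have e2 := sz_listBool_le (charL I)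
      have e3 : k.1.length < sz k := (length_lt_sz k.1).trans_le (by
        obtain ⟨M, r⟩ := k
        rw [sz_pair]
        simp only
        omega)
      simp only [Polynomial.eval_add, Polynomial.eval_mul, Polynomial.eval_C,
        Polynomial.eval_X]
      omega
    · rw [key, setOf_charL]
      refine ⟨h1, h2, h3, ?_⟩
      rw [← Bool.not_eq_true, charL_getD]
      rintro ⟨h, h'⟩
      exact h4 h h'
  · rintro ⟨s, -, hs⟩
    obtain ⟨h1, h2, h3, h4⟩ := (key s).1 hs
    refine ⟨setOf k.1.length s, h1, h2, h3, fun h h' => ?_⟩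
    simp only [setOf, Finset.mem_filter, Finset.mem_univ, true_and] at h'
    rw [h4] at h'
    exact absurd h' (by simp)

/-- The positions of the queries. -/
def grid (M : List (List Bool)) : List (ℕ × ℕ × ℕ) :=
  (List.range (2 * M.length + 2)).flatMap fun a => (List.range (M.length + 2)).flatMap fun b =>
    (List.range (M.length + 1)).map fun v => (a, b, v)

theorem mem_grid {M : List (List Bool)} {a b v : ℕ} : (a, b, v) ∈ grid M ↔
    a < 2 * M.length + 2 ∧ b < M.length + 2 ∧ v < M.length + 1 := by
  simp only [grid, List.mem_flatMap, List.mem_range, List.mem_map, Prod.mk.injEq]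
  constructor
  · rintro ⟨a', ha, b', hb, v', hv, rfl, rfl, rfl⟩
    exact ⟨ha, hb, hv⟩
  · rintro ⟨ha, hb, hv⟩
    exact ⟨a, ha, b, hb, v, hv, rfl, rfl, rfl⟩

/-- The evaluation of the answers. -/
def evalC (M : List (List Bool)) (ans : List Bool) : Bool :=
  (List.range (M.length + 1)).all fun b =>
    !(ansOf (grid M) ans (0, b, M.length) && !ansOf (grid M) ans (0, b + 1, M.length)) ||
    (List.range (2 * M.length + 1)).all fun a =>
      !(ansOf (grid M) ans (a, 0, M.length) && !ansOf (grid M) ans (a + 1, 0, M.length)) ||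
      (List.range (M.length + 1)).all fun c =>
        !(ansOf (grid M) ans (a, c, M.length) && !ansOf (grid M) ans (a, c + 1, M.length)) ||
        (List.range M.length).all fun v =>
          !(ansOf (grid M) ans (0, b, v) ^^ ansOf (grid M) ans (a, c, v))

theorem grid_poly : Poly grid := by
  have h1 : Poly (fun M : List (List Bool) => List.range (2 * M.length + 2)) :=
    UPoly.range (((UPoly.const 2).mul (UPoly.length Poly.id)).add (UPoly.const 2))
  have h2 : Poly (fun M : List (List Bool) => List.range (M.length + 2)) :=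
    UPoly.range ((UPoly.length Poly.id).add (UPoly.const 2))
  have h3 : Poly (fun M : List (List Bool) => List.range (M.length + 1)) :=
    UPoly.range ((UPoly.length Poly.id).add (UPoly.const 1))
  unfold grid
  refine Poly.flatMap (F := fun (M : List (List Bool)) a =>
    (List.range (M.length + 2)).flatMap fun b => (List.range (M.length + 1)).map fun v =>
      (a, b, v)) h1 ?_
  refine Poly.flatMap (F := fun (p : List (List Bool) × ℕ) b =>
    (List.range (p.1.length + 1)).map fun v => (p.2, b, v))
    (h2.comp (f := fun p : List (List Bool) × ℕ => p.1) (by fun_prop)) ?_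
  exact NPC.Poly.map (F := fun (p : (List (List Bool) × ℕ) × ℕ) v => (p.1.2, p.2, v))
    (h3.comp (f := fun p : (List (List Bool) × ℕ) × ℕ => p.1.1) (by fun_prop)) (by fun_prop)

theorem evalC_poly : Poly (fun p : List (List Bool) × List Bool => evalC p.1 p.2) := by
  have hg : ∀ {α : Type} [TEnc α] {M : α → List (List Bool)}, Poly M →
      Poly (fun a => grid (M a)) := fun hM => grid_poly.comp hM
  have ha : ∀ {α : Type} [TEnc α] {M : α → List (List Bool)} {ans : α → List Bool}
      {k : α → ℕ × ℕ × ℕ}, Poly M → Poly ans → Poly k →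
      Poly (fun a => ansOf (grid (M a)) (ans a) (k a)) := fun hM h2 h3 =>
    poly_ansOf (hg hM) h2 h3
  have r1 : Poly (fun M : List (List Bool) => List.range (2 * M.length + 1)) :=
    UPoly.range (((UPoly.const 2).mul (UPoly.length Poly.id)).add (UPoly.const 1))
  have r2 : Poly (fun M : List (List Bool) => List.range (M.length + 1)) :=
    UPoly.range ((UPoly.length Poly.id).add (UPoly.const 1))
  have r3 : Poly (fun M : List (List Bool) => List.range M.length) :=
    UPoly.range (UPoly.length Poly.id)
  unfold evalC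
  refine Poly.all (p := fun (p : List (List Bool) × List Bool) b =>
    !(ansOf (grid p.1) p.2 (0, b, p.1.length) && !ansOf (grid p.1) p.2 (0, b + 1, p.1.length)) ||
    (List.range (2 * p.1.length + 1)).all fun a =>
      !(ansOf (grid p.1) p.2 (a, 0, p.1.length) && !ansOf (grid p.1) p.2 (a + 1, 0, p.1.length)) ||
      (List.range (p.1.length + 1)).all fun c =>
        !(ansOf (grid p.1) p.2 (a, c, p.1.length) &&
          !ansOf (grid p.1) p.2 (a, c + 1, p.1.length)) ||
        (List.range p.1.length).all fun v =>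
          !(ansOf (grid p.1) p.2 (0, b, v) ^^ ansOf (grid p.1) p.2 (a, c, v)))
    (r2.comp (by fun_prop)) ?_
  refine Poly.or (Poly.not (Poly.and (ha (by fun_prop) (by fun_prop) (by fun_prop))
    (Poly.not (ha (by fun_prop) (by fun_prop) (by fun_prop))))) ?_
  refine Poly.all (p := fun (z : (List (List Bool) × List Bool) × ℕ) a =>
      !(ansOf (grid z.1.1) z.1.2 (a, 0, z.1.1.length) &&
        !ansOf (grid z.1.1) z.1.2 (a + 1, 0, z.1.1.length)) ||
      (List.range (z.1.1.length + 1)).all fun c =>
        !(ansOf (grid z.1.1) z.1.2 (a, c, z.1.1.length) &&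
          !ansOf (grid z.1.1) z.1.2 (a, c + 1, z.1.1.length)) ||
        (List.range z.1.1.length).all fun v =>
          !(ansOf (grid z.1.1) z.1.2 (0, z.2, v) ^^ ansOf (grid z.1.1) z.1.2 (a, c, v)))
    (r1.comp (f := fun z : (List (List Bool) × List Bool) × ℕ => z.1.1) (by fun_prop)) ?_
  refine Poly.or (Poly.not (Poly.and (ha (by fun_prop) (by fun_prop) (by fun_prop))
    (Poly.not (ha (by fun_prop) (by fun_prop) (by fun_prop))))) ?_
  refine Poly.all (p := fun (z : ((List (List Bool) × List Bool) × ℕ) × ℕ) c =>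
        !(ansOf (grid z.1.1.1) z.1.1.2 (z.2, c, z.1.1.1.length) &&
          !ansOf (grid z.1.1.1) z.1.1.2 (z.2, c + 1, z.1.1.1.length)) ||
        (List.range z.1.1.1.length).all fun v =>
          !(ansOf (grid z.1.1.1) z.1.1.2 (0, z.1.2, v) ^^
            ansOf (grid z.1.1.1) z.1.1.2 (z.2, c, v)))
    (r2.comp (f := fun z : ((List (List Bool) × List Bool) × ℕ) × ℕ => z.1.1.1)
      (by fun_prop)) ?_
  refine Poly.or (Poly.not (Poly.and (ha (by fun_prop) (by fun_prop) (by fun_prop))
    (Poly.not (ha (by fun_prop) (by fun_prop) (by fun_prop))))) ?_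
  refine Poly.all (p := fun (z : (((List (List Bool) × List Bool) × ℕ) × ℕ) × ℕ) v =>
          !(ansOf (grid z.1.1.1.1) z.1.1.1.2 (0, z.1.1.2, v) ^^
            ansOf (grid z.1.1.1.1) z.1.1.1.2 (z.1.2, z.2, v)))
    (r3.comp (f := fun z : (((List (List Bool) × List Bool) × ℕ) × ℕ) × ℕ => z.1.1.1.1)
      (by fun_prop)) ?_
  exact Poly.not (Poly.xor (ha (by fun_prop) (by fun_prop) (by fun_prop))
    (ha (by fun_prop) (by fun_prop) (by fun_prop)))

theorem exists_step {P : ℕ → Prop} {m : ℕ} (h0 : P 0) (hm : ¬ P (m + 1)) :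
    ∃ b ≤ m, P b ∧ ¬ P (b + 1) := by
  induction m with
  | zero => exact ⟨0, le_rfl, h0, hm⟩
  | succ m ih =>
    by_cases h : P (m + 1)
    · exact ⟨m + 1, le_rfl, h, hm⟩
    · obtain ⟨b, hb, h1⟩ := ih h
      exact ⟨b, by omega, h1⟩

section Sem

variable {M : List (List Bool)}

theorem core_of_step {b : ℕ} (h1 : Qry (M, 0, b, M.length)) (h2 : ¬ Qry (M, 0, b + 1, M.length))
    (v : Fin M.length) : Qry (M, 0, b, v.1) ↔ v ∉ core (matGraph M) := by
  have hle : ∀ J : Finset (Fin M.length), (matGraph M).IsIndepSet (J : Set (Fin M.length)) →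
      J.card ≤ b := by
    intro J hJ
    by_contra hcon
    refine h2 ⟨J, hJ, ?_, by simp only; omega, fun h => absurd h (lt_irrefl _)⟩
    have := Finset.card_le_univ (nbhd (matGraph M) J)
    simp only [Fintype.card_fin] at this
    simp only
    omega
  constructor
  · rintro ⟨I, hI, -, hb, hv⟩ hmem
    exact hv v.2 (hmem I ⟨hI, fun T hT => (hle T hT).trans hb⟩)
  · intro hv
    simp only [core, Set.mem_setOf_eq, not_forall] at hv
    obtain ⟨S, hS, hvS⟩ := hv
    obtain ⟨J, hJ, -, hbJ, -⟩ := h1
    refine ⟨S, hS.1, ?_, hbJ.trans (hS.2 J hJ), fun _ => hvS⟩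
    have := Finset.card_le_univ (nbhd (matGraph M) S)
    simp only [Fintype.card_fin] at this
    simp only
    omega

theorem crit_of_step {a : ℕ} (h1 : Qry (M, a, 0, M.length)) (h2 : ¬ Qry (M, a + 1, 0, M.length))
    (I : Finset (Fin M.length)) : IsCritical (matGraph M) I ↔
      (matGraph M).IsIndepSet (I : Set (Fin M.length)) ∧
        (nbhd (matGraph M) I).card + a ≤ I.card + M.length := by
  have hle : ∀ J : Finset (Fin M.length), (matGraph M).IsIndepSet (J : Set (Fin M.length)) →
      J.card + M.length ≤ (nbhd (matGraph M) J).card + a := by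
    intro J hJ
    by_contra hcon
    exact h2 ⟨J, hJ, by simp only; omega, by simp, fun h => absurd h (lt_irrefl _)⟩
  obtain ⟨J, hJ, hJ2, -, -⟩ := h1
  unfold IsCritical diff
  refine and_congr_right fun hI => ?_
  constructor
  · intro h
    have h3 := h J hJ
    simp only at hJ2
    omega
  · intro h T hT
    have h3 := hle T hT
    omega

theorem nucleus_of_step {a c : ℕ} (h1 : Qry (M, a, 0, M.length))
    (h2 : ¬ Qry (M, a + 1, 0, M.length)) (h3 : Qry (M, a, c, M.length))
    (h4 : ¬ Qry (M, a, c + 1, M.length)) (v : Fin M.length) :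
    Qry (M, a, c, v.1) ↔ v ∉ nucleus (matGraph M) := by
  have hcr := crit_of_step h1 h2
  have hle : ∀ J : Finset (Fin M.length), IsCritical (matGraph M) J → J.card ≤ c := by
    intro J hJ
    rw [hcr] at hJ
    by_contra hcon
    exact h4 ⟨J, hJ.1, hJ.2, by simp only; omega, fun h => absurd h (lt_irrefl _)⟩
  constructor
  · rintro ⟨I, hI, hd, hb, hv⟩ hmem
    exact hv v.2 (hmem I ⟨(hcr I).2 ⟨hI, hd⟩, fun T hT => (hle T hT).trans hb⟩)
  · intro hv
    simp only [nucleus, Set.mem_setOf_eq, not_forall] at hv
    obtain ⟨S, hS, hvS⟩ := hv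
    obtain ⟨J, hJ, hdJ, hbJ, -⟩ := h3
    have hS' := (hcr S).1 hS.1
    exact ⟨S, hS'.1, hS'.2, hbJ.trans (hS.2 J ((hcr J).2 ⟨hJ, hdJ⟩)), fun _ => hvS⟩

theorem qry_zero : Qry (M, 0, 0, M.length) := by
  refine ⟨∅, by simp [SimpleGraph.IsIndepSet], ?_, by simp, fun h => absurd h (lt_irrefl _)⟩
  have := Finset.card_le_univ (nbhd (matGraph M) ∅)
  simp only [Fintype.card_fin] at this
  simp only [Finset.card_empty]
  omega

theorem qry_big_a {b v : ℕ} : ¬ Qry (M, 2 * M.length + 1, b, v) := by
  rintro ⟨I, -, h, -, -⟩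
  have := Finset.card_le_univ I
  simp only [Fintype.card_fin] at this
  simp only at h
  omega

theorem qry_big_b {a v : ℕ} : ¬ Qry (M, a, M.length + 1, v) := by
  rintro ⟨I, -, -, h, -⟩
  have := Finset.card_le_univ I
  simp only [Fintype.card_fin] at this
  simp only at h
  omega

end Sem

/-- **Membership**: whether the core equals the nucleus can be decided in polynomial time with
parallel queries to `NP`. -/
theorem mem_theta : Pool.Agent.Y650.TH.InTheta2
    (lang fun M : List (List Bool) => core (matGraph M) = nucleus (matGraph M)) := by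
  classical
  refine inTheta2_of (κ := List (List Bool) × ℕ × ℕ × ℕ) (Q := Qry) inNP_qry
    (qs := fun M => (grid M).map fun k => (M, k)) ?_ (e := evalC) evalC_poly ?_
  · have hg : Poly (fun M : List (List Bool) => grid M) := grid_poly
    fun_prop
  intro M ans hans
  have hA : ∀ k ∈ grid M, (ansOf (grid M) ans k = true ↔ Qry (M, k)) := fun k hk =>
    ansOf_iff (g := fun k => (M, k)) hans hk
  have hA' : ∀ k ∈ grid M, (ansOf (grid M) ans k = false ↔ ¬ Qry (M, k)) := fun k hk => by
    rw [← hA k hk, Bool.not_eq_true]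
  unfold evalC
  simp only [List.all_eq_true, List.mem_range, Bool.or_eq_true, Bool.not_eq_true',
    Bool.and_eq_false_iff, Bool.not_eq_false']
  constructor
  · intro h b hb
    by_cases h1 : Qry (M, 0, b, M.length) ∧ ¬ Qry (M, 0, b + 1, M.length)
    · right
      intro a ha
      by_cases h2 : Qry (M, a, 0, M.length) ∧ ¬ Qry (M, a + 1, 0, M.length)
      · right
        intro c hc
        by_cases h3 : Qry (M, a, c, M.length) ∧ ¬ Qry (M, a, c + 1, M.length)
        · right
          intro v hv
          have e1 := core_of_step h1.1 h1.2 ⟨v, hv⟩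
          have e2 := nucleus_of_step h2.1 h2.2 h3.1 h3.2 ⟨v, hv⟩
          rw [h] at e1
          have e3 := e1.trans e2.symm
          simp only at e3
          rw [← hA _ (mem_grid.2 (by omega)), ← hA _ (mem_grid.2 (by omega))] at e3
          revert e3
          cases ansOf (grid M) ans (0, b, v) <;> cases ansOf (grid M) ans (a, c, v) <;> simp
        · left
          rw [hA' _ (mem_grid.2 (by omega)), hA _ (mem_grid.2 (by omega))]
          tauto
      · left
        rw [hA' _ (mem_grid.2 (by omega)), hA _ (mem_grid.2 (by omega))]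
        tauto
    · left
      rw [hA' _ (mem_grid.2 (by omega)), hA _ (mem_grid.2 (by omega))]
      tauto
  · intro h
    obtain ⟨b, hb, hb1, hb2⟩ := exists_step (P := fun b => Qry (M, 0, b, M.length))
      (m := M.length) qry_zero qry_big_b
    obtain ⟨a, ha, ha1, ha2⟩ := exists_step (P := fun a => Qry (M, a, 0, M.length))
      (m := 2 * M.length) qry_zero qry_big_a
    obtain ⟨c, hc, hc1, hc2⟩ := exists_step (P := fun c => Qry (M, a, c, M.length))
      (m := M.length) ha1 qry_big_b
    have hh := h b (by omega)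
    rw [hA' _ (mem_grid.2 (by omega)), hA _ (mem_grid.2 (by omega))] at hh
    have hh2 := (hh.resolve_left (by tauto)) a (by omega)
    rw [hA' _ (mem_grid.2 (by omega)), hA _ (mem_grid.2 (by omega))] at hh2
    have hh3 := (hh2.resolve_left (by tauto)) c (by omega)
    rw [hA' _ (mem_grid.2 (by omega)), hA _ (mem_grid.2 (by omega))] at hh3
    have hh4 := hh3.resolve_left (by tauto)
    ext v
    have e1 := core_of_step hb1 hb2 v
    have e2 := nucleus_of_step ha1 ha2 hc1 hc2 v
    have h5 := hh4 v v.2
    have e3 : Qry (M, 0, b, v.1) ↔ Qry (M, a, c, v.1) := by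
      rw [← hA _ (mem_grid.2 (by have := v.2; omega)), ← hA _ (mem_grid.2 (by have := v.2; omega))]
      revert h5
      cases ansOf (grid M) ans (0, b, v.1) <;> cases ansOf (grid M) ans (a, c, v.1) <;> simp
    have e4 := e1.symm.trans (e3.trans e2)
    exact not_iff_not.1 e4

end Pool.Agent.X248.Core
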