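import Pool.Agent.X248.Core.Red

/-!
# Core and nucleus: correctness of the reduction
-/

set_option autoImplicit false

namespace Pool.Agent.X248.Core

open Pool.Agent.NPC Pool.Agent.H622R2
open Pool.Agent.Y650.TH (Cl OrDP)

variable {ps : List (List Cl × List Cl)}

theorem form_le (i τ : ℕ) : (form ps i τ).length + 2 ≤ NN ps i := by
  unfold form NN
  split_ifs
  · omega
  · simp
  · omega

/-- The part of an independent set in a block lies in one component. -/
theorem block_comp {S : Finset Lab} (hS : Ind ps S) {i : ℕ} {x : Lab} (hx : x ∈ S)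
    (hxi : x.1 = i) : ∀ y ∈ S.filter (fun y => y.1 = i), y.1 = i ∧ y.2.1 = x.2.1 := by
  intro y hy
  obtain ⟨hyS, hyi⟩ := Finset.mem_filter.1 hy
  refine ⟨hyi, ?_⟩
  by_cases h : x = y
  · rw [h]
  · exact ((ind_pair hS hx hyS h).2.2 (hxi.trans hyi.symm)).1.symm

theorem ind_filter {S : Finset Lab} (hS : Ind ps S) (i : ℕ) :
    Ind ps (S.filter (fun y => y.1 = i)) :=
  ⟨fun x hx => hS.1 x (Finset.mem_filter.1 hx).1, fun x hx y hy h =>
    hS.2 x (Finset.mem_filter.1 hx).1 y (Finset.mem_filter.1 hy).1 h⟩

theorem slot_mem {S : Finset Lab} {i τ : ℕ} (hb : ∀ x ∈ S, x ∈ base ps)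
    (hc : ∀ x ∈ S, x.1 = i ∧ x.2.1 = τ) : ∀ x ∈ S, x.2.2.1 ∈ Finset.range (slots ps i τ) := by
  intro x hx
  have h1 := (mem_base.1 (hb x hx)).2.2.1
  rw [(hc x hx).1, (hc x hx).2] at h1
  exact Finset.mem_range.2 h1

theorem block_card_le {S : Finset Lab} (hS : Ind ps S) (hb : ∀ x ∈ S, x ∈ base ps) (i : ℕ) :
    (S.filter (fun y => y.1 = i)).card ≤ NN ps i := by
  rcases (S.filter (fun y => y.1 = i)).eq_empty_or_nonempty with h | ⟨x, hx⟩
  · rw [h]
    simp
  · obtain ⟨hxS, hxi⟩ := Finset.mem_filter.1 hx
    have h1 := block_comp hS hxS hxi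
    have h2 := card_le_of_slots (ind_filter hS i) h1 _
      (slot_mem (fun y hy => hb y (Finset.mem_filter.1 hy).1) h1)
    rw [Finset.card_range] at h2
    refine h2.trans ?_
    unfold slots
    split_ifs <;> omega

/-- If the first formula of a pair is satisfiable and the second is not, then the core is not
empty. -/
theorem core_ne {i : ℕ} (hi : i < ps.length) (h1 : SAT3 (form ps i 0))
    (h2 : ¬ SAT3 (form ps i 1)) {S : Finset Lab} (hS : Max ps S) :
    ((i, 0, (form ps i 0).length, 0) : Lab) ∈ S := by
  classical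
  by_contra hx0
  obtain ⟨T, hT, hTc, hTn⟩ := full_of_sat hi (by omega : (0 : ℕ) < 3) h1
  have hN := form_le (ps := ps) i 0
  rcases ind_cases hS.1 with ⟨x, _, rfl⟩ | hb
  · have := hS.2 T hT
    rw [Finset.card_singleton] at this
    omega
  have hTb : ∀ x ∈ T, x ∈ base ps := by
    rcases ind_cases hT with ⟨x, _, rfl⟩ | h
    · rw [Finset.card_singleton] at hTn
      omega
    · exact h
  have hlt : (S.filter (fun x => x.1 = i)).card < NN ps i := by
    rcases (S.filter (fun y => y.1 = i)).eq_empty_or_nonempty with h | ⟨x, hx⟩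
    · rw [h, Finset.card_empty]
      omega
    · obtain ⟨hxS, hxi⟩ := Finset.mem_filter.1 hx
      have hc := block_comp hS.1 hxS hxi
      have hb' : ∀ y ∈ S.filter (fun y => y.1 = i), y ∈ base ps :=
        fun y hy => hb y (Finset.mem_filter.1 hy).1
      have hsl := slot_mem hb' hc
      have hτ := (mem_base.1 (hb x hxS)).2.1
      by_cases h0 : x.2.1 = 0
      · -- the special slot is not hit
        have h3 := card_le_of_slots (ind_filter hS.1 i) hc
          ((Finset.range (slots ps i x.2.1)).erase (form ps i 0).length) (by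
            intro y hy
            refine Finset.mem_erase.2 ⟨fun h => hx0 ?_, hsl y hy⟩
            have h4 := (mem_base.1 (hb' y hy)).2.2.2
            obtain ⟨h5, h6⟩ := hc y hy
            rw [h5, h6, h0, h] at h4
            unfold width at h4
            rw [if_neg (by omega), if_neg (by omega)] at h4
            have h7 : y = (i, 0, (form ps i 0).length, 0) := by
              refine Prod.ext h5 (Prod.ext (h6.trans h0) (Prod.ext h ?_))
              show y.2.2.2 = 0
              omega
            rw [← h7]
            exact (Finset.mem_filter.1 hy).1)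
        have h8 : slots ps i x.2.1 = NN ps i := by
          unfold slots
          rw [if_neg (by omega)]
        rw [Finset.card_erase_of_mem (by rw [h8, Finset.mem_range]; omega), h8,
          Finset.card_range] at h3
        omega
      · by_cases h3 : x.2.1 = 3
        · have h4 := card_le_of_slots (ind_filter hS.1 i) hc _ hsl
          rw [Finset.card_range] at h4
          unfold slots at h4
          rw [if_pos h3] at h4
          omega
        · by_contra hcon
          apply h2
          have h4 := sat_of_full (ind_filter hS.1 i) hb' h3 hc (by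
            have := form_le (ps := ps) i x.2.1
            omega) (by omega)
          have h5 : form ps i x.2.1 = form ps i 1 := by
            unfold form
            rw [if_neg h0, if_neg h3, if_neg (by omega), if_neg (by omega)]
          rwa [h5] at h4
  obtain ⟨h3, h4⟩ := swap hS.1 hb hT (fun x hx => (hTc x hx).1) hTb
  have h5 := hS.2 _ h3
  omega

/-- A replacement in a block which avoids a given label. -/
theorem exists_avoid (h : ¬ OrDP ps) {S : Finset Lab} (hS : Ind ps S)
    (hb : ∀ x ∈ S, x ∈ base ps) {x : Lab} (hx : x ∈ S) :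
    ∃ T : Finset Lab, Ind ps T ∧ (∀ y ∈ T, y ∈ base ps) ∧ (∀ y ∈ T, y.1 = x.1) ∧ x ∉ T ∧
      (S.filter (fun y => y.1 = x.1)).card ≤ T.card := by
  classical
  obtain ⟨hi, hτ, hc, hj⟩ := mem_base.1 (hb x hx)
  have hcomp := block_comp hS hx rfl
  have hb' : ∀ y ∈ S.filter (fun y => y.1 = x.1), y ∈ base ps :=
    fun y hy => hb y (Finset.mem_filter.1 hy).1
  have hN := form_le (ps := ps) x.1 0
  -- the third component
  have hthird : ∀ f : ℕ → ℕ, (∀ c, f c < 2) → x ∉ (Finset.range (NN ps x.1 - 1)).image
      (fun c => ((x.1, 3, c, f c) : Lab)) →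
      (S.filter (fun y => y.1 = x.1)).card ≤ NN ps x.1 - 1 →
      ∃ T : Finset Lab, Ind ps T ∧ (∀ y ∈ T, y ∈ base ps) ∧ (∀ y ∈ T, y.1 = x.1) ∧ x ∉ T ∧
        (S.filter (fun y => y.1 = x.1)).card ≤ T.card := by
    intro f hf hxn hcard
    have hTb : ∀ y ∈ (Finset.range (NN ps x.1 - 1)).image (fun c => ((x.1, 3, c, f c) : Lab)),
        y ∈ base ps := by
      intro y hy
      obtain ⟨c, hc, rfl⟩ := Finset.mem_image.1 hy
      rw [Finset.mem_range] at hc
      rw [mem_base]
      refine ⟨hi, by simp only; omega, ?_, ?_⟩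
      · simp only [slots, if_true]
        exact hc
      · simp only [width, if_true]
        exact hf c
    refine ⟨_, ?_, hTb, ?_, hxn, ?_⟩
    · refine ind_of_pair hTb ?_
      intro y hy z hz hne _
      obtain ⟨c, hc, rfl⟩ := Finset.mem_image.1 hy
      obtain ⟨c', hc', rfl⟩ := Finset.mem_image.1 hz
      refine ⟨rfl, fun h => hne (by simp only at h; rw [h]), ?_⟩
      simp [conf, form, litAt]
    · intro y hy
      obtain ⟨c, hc, rfl⟩ := Finset.mem_image.1 hy
      rfl
    · rw [Finset.card_image_of_injective _ (fun a b h => by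
        simp only [Prod.mk.injEq, true_and] at h
        exact h.1), Finset.card_range]
      exact hcard
  -- copies of the block in another component
  have hcopy : ∀ σ, σ < 3 → σ ≠ x.2.1 → form ps x.1 σ = form ps x.1 x.2.1 → x.2.1 ≠ 3 →
      ∃ T : Finset Lab, Ind ps T ∧ (∀ y ∈ T, y ∈ base ps) ∧ (∀ y ∈ T, y.1 = x.1) ∧ x ∉ T ∧
        (S.filter (fun y => y.1 = x.1)).card ≤ T.card := by
    intro σ hσ hne hform h3
    have hTb : ∀ y ∈ (S.filter (fun y => y.1 = x.1)).image
        (fun y => ((x.1, σ, y.2.2.1, y.2.2.2) : Lab)), y ∈ base ps := by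
      intro y hy
      obtain ⟨z, hz, rfl⟩ := Finset.mem_image.1 hy
      obtain ⟨h4, h5, h6, h7⟩ := mem_base.1 (hb' z hz)
      obtain ⟨e1, e2⟩ := hcomp z hz
      rw [e1, e2] at h6 h7
      rw [mem_base]
      refine ⟨hi, by simp only; omega, ?_, ?_⟩
      · simp only [slots] at h6 ⊢
        rw [if_neg h3] at h6
        rw [if_neg (by omega)]
        exact h6
      · simp only [width] at h7 ⊢
        rw [if_neg h3] at h7
        rw [if_neg (by omega), hform]
        exact h7
    refine ⟨_, ?_, hTb, ?_, ?_, ?_⟩
    · refine ind_of_pair hTb ?_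
      intro y hy z hz hne _
      obtain ⟨a, ha, rfl⟩ := Finset.mem_image.1 hy
      obtain ⟨b, hb2, rfl⟩ := Finset.mem_image.1 hz
      have hab : a ≠ b := fun h => hne (by rw [h])
      obtain ⟨e1, e2⟩ := hcomp a ha
      obtain ⟨e3, e4⟩ := hcomp b hb2
      have h5 := (ind_pair hS (Finset.mem_filter.1 ha).1 (Finset.mem_filter.1 hb2).1 hab).2.2
        (e1.trans e3.symm)
      rw [e1, e2] at h5
      refine ⟨rfl, h5.2.1, ?_⟩
      simp only
      rw [hform]
      exact h5.2.2
    · intro y hy
      obtain ⟨z, hz, rfl⟩ := Finset.mem_image.1 hy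
      rfl
    · intro h
      obtain ⟨z, hz, hzx⟩ := Finset.mem_image.1 h
      apply hne
      rw [← hzx]
    · rw [Finset.card_image_of_injOn]
      intro a ha b hb2 hab
      obtain ⟨e1, e2⟩ := hcomp a ha
      obtain ⟨e3, e4⟩ := hcomp b hb2
      simp only [Prod.mk.injEq, true_and] at hab
      exact Prod.ext (e1.trans e3.symm) (Prod.ext (e2.trans e4.symm) (Prod.ext hab.1 hab.2))
  have hτ' : x.2.1 = 0 ∨ x.2.1 = 1 ∨ x.2.1 = 2 ∨ x.2.1 = 3 := by omega
  rcases hτ' with h0 | h0 | h0 | h0
  · by_cases hcard : (S.filter (fun y => y.1 = x.1)).card ≤ NN ps x.1 - 1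
    · refine hthird (fun _ => 0) (fun _ => by omega) ?_ hcard
      intro h
      obtain ⟨c, _, hcx⟩ := Finset.mem_image.1 h
      rw [← hcx] at h0
      simp at h0
    · have hsat : SAT3 (form ps x.1 x.2.1) := by
        refine sat_of_full (ind_filter hS x.1) hb' (by omega) hcomp ?_ (by omega)
        have := form_le (ps := ps) x.1 x.2.1
        omega
      have hsat2 : SAT3 (form ps x.1 1) := by
        by_contra hcon
        apply h
        refine ⟨ps[x.1], List.getElem_mem hi, ?_, ?_⟩
        · rw [h0] at hsat
          have : form ps x.1 0 = ps[x.1].1 := by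
            unfold form
            rw [if_pos rfl, List.getD_eq_getElem _ _ hi]
          rwa [← this]
        · have : form ps x.1 1 = ps[x.1].2 := by
            unfold form
            rw [if_neg (by omega), if_neg (by omega), List.getD_eq_getElem _ _ hi]
          rwa [← this]
      obtain ⟨T, hT, hTc, hTn⟩ := full_of_sat hi (by omega : (1 : ℕ) < 3) hsat2
      have hTb : ∀ x ∈ T, x ∈ base ps := by
        rcases ind_cases hT with ⟨x, _, rfl⟩ | h
        · rw [Finset.card_singleton] at hTn
          omega
        · exact h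
      refine ⟨T, hT, hTb, fun y hy => (hTc y hy).1, ?_, ?_⟩
      · intro hxT
        have := (hTc x hxT).2
        omega
      · rw [hTn]
        exact block_card_le hS hb x.1
  · refine hcopy 2 (by omega) (by omega) ?_ (by omega)
    rw [h0]
    rfl
  · refine hcopy 1 (by omega) (by omega) ?_ (by omega)
    rw [h0]
    rfl
  · have hcard : (S.filter (fun y => y.1 = x.1)).card ≤ NN ps x.1 - 1 := by
      have h1 := card_le_of_slots (ind_filter hS x.1) hcomp _ (slot_mem hb' hcomp)
      rw [Finset.card_range] at h1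
      unfold slots at h1
      rwa [if_pos h0] at h1
    have hj2 : x.2.2.2 < 2 := by
      unfold width at hj
      rwa [if_pos h0] at hj
    refine hthird (fun _ => 1 - x.2.2.2) (fun _ => by omega) ?_ hcard
    intro h
    obtain ⟨c, _, hcx⟩ := Finset.mem_image.1 h
    have : x.2.2.2 = 1 - x.2.2.2 := by
      conv_lhs => rw [← hcx]
    omega

/-- If there is no pair of a satisfiable and an unsatisfiable formula, then the core is empty. -/
theorem exists_max_avoid (h : ¬ OrDP ps) {x : Lab} (hx : x ∈ labs ps) :
    ∃ S : Finset Lab, Max ps S ∧ x ∉ S := by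
  classical
  obtain ⟨S, hS1, hS2⟩ := Finset.exists_max_image
    ((labs ps).toFinset.powerset.filter fun S => Ind ps S) (fun S => S.card)
    ⟨∅, by
      rw [Finset.mem_filter]
      exact ⟨Finset.empty_mem_powerset _, by simp [IndL]⟩⟩
  rw [Finset.mem_filter] at hS1
  have hmax : Max ps S := ⟨hS1.2, fun T hT => hS2 T (Finset.mem_filter.2
    ⟨Finset.mem_powerset.2 (fun y hy => List.mem_toFinset.2 (hT.1 y hy)), hT⟩)⟩
  by_cases hxS : x ∈ S
  · rcases ind_cases hmax.1 with ⟨y, hy4, rfl⟩ | hb
    · rw [Finset.mem_singleton] at hxS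
      subst hxS
      -- another vertex of the clique
      let z : Lab := (if x.1 = 0 then 1 else 0, 4, 0, 0)
      have hz : z ∈ labs ps := mem_labs.2 (Or.inr ⟨_, by split_ifs <;> omega, rfl⟩)
      refine ⟨{z}, ⟨⟨?_, ?_⟩, ?_⟩, ?_⟩
      · intro y hy
        rw [Finset.mem_singleton] at hy
        rw [hy]; exact hz
      · intro a ha b hb hab
        rw [Finset.mem_singleton] at ha hb
        exact absurd (ha.trans hb.symm) hab
      · intro T hT
        have := hmax.2 T hT
        rw [Finset.card_singleton] at this ⊢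
        exact this
      · rw [Finset.mem_singleton]
        intro h
        have h1 : x.1 = if x.1 = 0 then 1 else 0 := congrArg Prod.fst h
        split_ifs at h1 with h2 <;> omega
    · obtain ⟨T, hT, hTb, hTi, hxT, hcard⟩ := exists_avoid h hmax.1 hb hxS
      obtain ⟨h3, h4⟩ := swap hmax.1 hb hT hTi hTb
      refine ⟨_, ⟨h3, fun T' hT' => ?_⟩, ?_⟩
      · have := hmax.2 T' hT'
        omega
      · intro hmem
        rcases Finset.mem_union.1 hmem with h5 | h5
        · exact (Finset.mem_filter.1 h5).2 rfl
        · exact hxT h5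
  · exact ⟨S, hmax, hxS⟩

/-- The graph. -/
abbrev GG (ps : List (List Cl × List Cl)) : SimpleGraph {x // x ∈ labs ps} :=
  labGraph (labs ps) (adjL ps)

theorem core_empty_iff : core (GG ps) = ∅ ↔ ¬ OrDP ps := by
  constructor
  · rintro h ⟨p, hp, h1, h2⟩
    obtain ⟨i, hi, rfl⟩ := List.getElem_of_mem hp
    have f1 : form ps i 0 = ps[i].1 := by
      unfold form
      rw [if_pos rfl, List.getD_eq_getElem _ _ hi]
    have f2 : form ps i 1 = ps[i].2 := by
      unfold form
      rw [if_neg (by omega), if_neg (by omega), List.getD_eq_getElem _ _ hi]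
    have hN := form_le (ps := ps) i 0
    have hmem : ((i, 0, (form ps i 0).length, 0) : Lab) ∈ labs ps := by
      rw [mem_labs, mem_base]
      left
      refine ⟨hi, by simp only; omega, ?_, ?_⟩
      · simp only [slots]
        rw [if_neg (by omega)]
        omega
      · simp only [width]
        rw [if_neg (by omega), if_neg (by omega)]
        omega
    have h3 : (⟨_, hmem⟩ : {x // x ∈ labs ps}) ∈ core (GG ps) := by
      rw [mem_core_lab adjL_symm]
      intro S hS
      exact core_ne hi (by rw [f1]; exact h1) (by rw [f2]; exact h2) hS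
    rw [h] at h3
    exact h3
  · intro h
    ext x
    simp only [Set.mem_empty_iff_false, iff_false]
    intro hx
    rw [mem_core_lab adjL_symm] at hx
    obtain ⟨S, hS, hxS⟩ := exists_max_avoid h x.2
    exact hxS (hx S hS)

theorem nucleus_GG : nucleus (GG ps) = ∅ := by
  classical
  refine nucleus_empty fun I hI hne => ?_
  have hI' : Ind ps (I.map (Function.Embedding.subtype _)) := (indL_map adjL_symm).2 hI
  have hcl : ∀ t < (base ps).length + 3, ((t, 4, 0, 0) : Lab) ∈ labs ps := fun t ht =>
    mem_labs.2 (Or.inr ⟨t, ht, rfl⟩)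
  let f : Fin ((base ps).length + 3) ↪ {x // x ∈ labs ps} :=
    ⟨fun t => ⟨(t.1, 4, 0, 0), hcl t.1 t.2⟩, fun a b h => by
      have := congrArg (fun z : {x // x ∈ labs ps} => z.1.1) h
      exact Fin.ext this⟩
  have hadj : ∀ u v : {x // x ∈ labs ps}, u ≠ v → (u.1.2.1 = 4 ∨ v.1.2.1 = 4) →
      (GG ps).Adj u v := by
    intro u v huv h
    rw [lab_adj adjL_symm]
    refine ⟨huv, ?_⟩
    unfold adjL
    rcases h with h | h <;> simp [h]
  rcases ind_cases hI' with ⟨x, hx4, hx⟩ | hb
  · -- a vertex of the clique
    have hcard : I.card = 1 := by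
      have := congrArg Finset.card hx
      rwa [Finset.card_map, Finset.card_singleton] at this
    obtain ⟨u, rfl⟩ := Finset.card_eq_one.1 hcard
    have hu : u.1.2.1 = 4 := by
      rw [Finset.map_singleton, Finset.singleton_inj] at hx
      have : u.1 = x := hx
      rw [this]; exact hx4
    have h1 : Finset.univ.map f \ {u} ⊆ nbhd (GG ps) {u} := by
      intro v hv
      rw [Finset.mem_sdiff, Finset.mem_singleton] at hv
      unfold nbhd
      rw [Finset.mem_filter]
      exact ⟨Finset.mem_univ _, u, Finset.mem_singleton_self _,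
        hadj u v (fun h => hv.2 h.symm) (Or.inl hu)⟩
    have h2 := Finset.card_le_card h1
    have h3 := Finset.le_card_sdiff {u} (Finset.univ.map f)
    rw [Finset.card_map, Finset.card_univ, Fintype.card_fin, Finset.card_singleton] at h3
    rw [Finset.card_singleton]
    omega
  · have h1 : I.card ≤ (base ps).length := by
      have h2 : (I.map (Function.Embedding.subtype _)) ⊆ (base ps).toFinset := fun y hy =>
        List.mem_toFinset.2 (hb y hy)
      have h3 := Finset.card_le_card h2
      rw [Finset.card_map] at h3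
      exact h3.trans (List.toFinset_card_le _)
    obtain ⟨u, hu⟩ := hne
    have h2 : Finset.univ.map f ⊆ nbhd (GG ps) I := by
      intro v hv
      rw [Finset.mem_map] at hv
      obtain ⟨t, _, rfl⟩ := hv
      unfold nbhd
      rw [Finset.mem_filter]
      refine ⟨Finset.mem_univ _, u, hu, hadj _ _ ?_ (Or.inr rfl)⟩
      intro h
      have h3 := hb u.1 (Finset.mem_map_of_mem _ hu)
      have h4 := (mem_base.1 h3).2.1
      rw [h] at h4
      simp [f] at h4
    have h3 := Finset.card_le_card h2
    rw [Finset.card_map, Finset.card_univ, Fintype.card_fin] at h3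
    omega

/-- **Correctness of the reduction.** -/
theorem core_eq_nucleus_iff : core (GG ps) = nucleus (GG ps) ↔ ¬ OrDP ps := by
  rw [nucleus_GG, core_empty_iff]

end Pool.Agent.X248.Core
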