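import Pool.Agent.H622R2.MatGraph

/-!
# Core and nucleus: definitions and transfer
-/

set_option autoImplicit false

namespace Pool.Agent.X248.Core

open Pool.Agent.H622R2

section Defs

variable {V : Type} [Fintype V] (G : SimpleGraph V)

open Classical in
/-- The neighbourhood `N(X)`: the vertices adjacent to some vertex of `X`. -/
noncomputable def nbhd (X : Finset V) : Finset V := Finset.univ.filter fun v => ∃ x ∈ X, G.Adj x v

/-- The difference `|X| - |N(X)|`. -/
noncomputable def diff (X : Finset V) : ℤ := (X.card : ℤ) - ((nbhd G X).card : ℤ)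

/-- `S` is a maximum independent set. -/
def IsMaxInd (S : Finset V) : Prop :=
  G.IsIndepSet (S : Set V) ∧ ∀ T : Finset V, G.IsIndepSet (T : Set V) → T.card ≤ S.card

/-- The core: the intersection of all maximum independent sets. -/
def core : Set V := {v | ∀ S : Finset V, IsMaxInd G S → v ∈ S}

/-- `I` is a critical independent set. -/
def IsCritical (I : Finset V) : Prop :=
  G.IsIndepSet (I : Set V) ∧ ∀ J : Finset V, G.IsIndepSet (J : Set V) → diff G J ≤ diff G I

/-- `I` is a maximum critical independent set: a critical one of largest cardinality. -/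
def IsMaxCritical (I : Finset V) : Prop :=
  IsCritical G I ∧ ∀ J : Finset V, IsCritical G J → J.card ≤ I.card

/-- The nucleus: the intersection of all maximum critical independent sets. -/
def nucleus : Set V := {v | ∀ I : Finset V, IsMaxCritical G I → v ∈ I}

end Defs

section Iso

variable {V W : Type} [Fintype V] [Fintype W] {G : SimpleGraph V} {H : SimpleGraph W}

theorem indep_map (e : G ≃g H) {S : Finset V} :
    H.IsIndepSet ((S.map e.toEquiv.toEmbedding : Finset W) : Set W) ↔ G.IsIndepSet (S : Set V) := by
  constructor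
  · intro h a ha b hb hab hadj
    refine h (x := e a) ?_ (y := e b) ?_ (fun h' => hab (e.injective h')) (e.map_adj_iff.2 hadj)
    · simpa using ha
    · simpa using hb
  · intro h a ha b hb hab hadj
    simp only [Finset.coe_map, Set.mem_image, Finset.mem_coe] at ha hb
    obtain ⟨a, ha, rfl⟩ := ha
    obtain ⟨b, hb, rfl⟩ := hb
    exact h ha hb (fun h' => hab (by rw [h'])) (e.map_adj_iff.1 hadj)

theorem nbhd_map (e : G ≃g H) (S : Finset V) :
    nbhd H (S.map e.toEquiv.toEmbedding) = (nbhd G S).map e.toEquiv.toEmbedding := by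
  ext w
  simp only [nbhd, Finset.mem_filter, Finset.mem_univ, true_and, Finset.mem_map]
  constructor
  · rintro ⟨x, ⟨a, ha, rfl⟩, h⟩
    refine ⟨e.symm w, ⟨a, ha, ?_⟩, ?_⟩
    · rw [← e.map_adj_iff]
      simpa using h
    · simp
  · rintro ⟨v, ⟨a, ha, h⟩, rfl⟩
    exact ⟨e a, ⟨a, ha, rfl⟩, e.map_adj_iff.2 h⟩

theorem diff_map (e : G ≃g H) (S : Finset V) :
    diff H (S.map e.toEquiv.toEmbedding) = diff G S := by
  unfold diff
  rw [nbhd_map, Finset.card_map, Finset.card_map]

theorem isMaxInd_map (e : G ≃g H) {S : Finset V} :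
    IsMaxInd H (S.map e.toEquiv.toEmbedding) ↔ IsMaxInd G S := by
  unfold IsMaxInd
  rw [indep_map]
  refine and_congr_right fun _ => ?_
  constructor
  · intro h T hT
    have := h _ ((indep_map e).2 hT)
    rwa [Finset.card_map, Finset.card_map] at this
  · intro h T hT
    rw [Finset.card_map]
    have h1 := h (T.map e.symm.toEquiv.toEmbedding) ((indep_map e.symm).2 hT)
    rwa [Finset.card_map] at h1

theorem isCritical_map (e : G ≃g H) {S : Finset V} :
    IsCritical H (S.map e.toEquiv.toEmbedding) ↔ IsCritical G S := by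
  unfold IsCritical
  rw [indep_map, diff_map]
  refine and_congr_right fun _ => ?_
  constructor
  · intro h T hT
    have := h _ ((indep_map e).2 hT)
    rwa [diff_map] at this
  · intro h T hT
    have h1 := h (T.map e.symm.toEquiv.toEmbedding) ((indep_map e.symm).2 hT)
    rwa [diff_map] at h1

theorem isMaxCritical_map (e : G ≃g H) {S : Finset V} :
    IsMaxCritical H (S.map e.toEquiv.toEmbedding) ↔ IsMaxCritical G S := by
  unfold IsMaxCritical
  rw [isCritical_map]
  refine and_congr_right fun _ => ?_
  constructor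
  · intro h T hT
    have := h _ ((isCritical_map e).2 hT)
    rwa [Finset.card_map, Finset.card_map] at this
  · intro h T hT
    rw [Finset.card_map]
    have h1 := h (T.map e.symm.toEquiv.toEmbedding) ((isCritical_map e.symm).2 hT)
    rwa [Finset.card_map] at h1

theorem mem_map_iso (e : G ≃g H) (v : V) (S : Finset V) :
    e v ∈ S.map e.toEquiv.toEmbedding ↔ v ∈ S := Finset.mem_map' e.toEquiv.toEmbedding

theorem mem_map_iso_symm (e : G ≃g H) (v : V) (T : Finset W) :
    v ∈ T.map e.symm.toEquiv.toEmbedding ↔ e v ∈ T := by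
  have h := Finset.mem_map' (s := T) (a := e v) e.symm.toEquiv.toEmbedding
  rw [← h]
  have : e.symm.toEquiv.toEmbedding (e v) = v := e.symm_apply_apply v
  rw [this]

theorem mem_core_map (e : G ≃g H) (v : V) : e v ∈ core H ↔ v ∈ core G := by
  constructor
  · intro h S hS
    exact (mem_map_iso e v S).1 (h _ ((isMaxInd_map e).2 hS))
  · intro h T hT
    exact (mem_map_iso_symm e v T).1 (h _ ((isMaxInd_map e.symm).2 hT))

theorem mem_nucleus_map (e : G ≃g H) (v : V) : e v ∈ nucleus H ↔ v ∈ nucleus G := by
  constructor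
  · intro h S hS
    exact (mem_map_iso e v S).1 (h _ ((isMaxCritical_map e).2 hS))
  · intro h T hT
    exact (mem_map_iso_symm e v T).1 (h _ ((isMaxCritical_map e.symm).2 hT))

theorem core_eq_nucleus_map (e : G ≃g H) : core G = nucleus G ↔ core H = nucleus H := by
  constructor
  · intro h
    ext w
    obtain ⟨v, rfl⟩ := e.surjective w
    rw [mem_core_map, mem_nucleus_map, h]
  · intro h
    ext v
    rw [← mem_core_map e, ← mem_nucleus_map e, h]

end Iso

/-! ### Labelled graphs -/

section Lab

variable {α : Type} [DecidableEq α]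

/-- Independent sets of labels. -/
def IndL (vs : List α) (adj : α → α → Bool) (S : Finset α) : Prop :=
  (∀ x ∈ S, x ∈ vs) ∧ ∀ x ∈ S, ∀ y ∈ S, x ≠ y → adj x y = false

/-- Maximum independent sets of labels. -/
def MaxL (vs : List α) (adj : α → α → Bool) (S : Finset α) : Prop :=
  IndL vs adj S ∧ ∀ T : Finset α, IndL vs adj T → T.card ≤ S.card

variable {vs : List α} {adj : α → α → Bool}

theorem lab_adj (hs : ∀ x y, adj x y = adj y x) (u v : {x // x ∈ vs}) :
    (labGraph vs adj).Adj u v ↔ u ≠ v ∧ adj u.1 v.1 = true := by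
  simp only [labGraph]
  rw [hs v.1 u.1, or_self]

theorem indL_map (hs : ∀ x y, adj x y = adj y x) {S : Finset {x // x ∈ vs}} :
    IndL vs adj (S.map (Function.Embedding.subtype _)) ↔
      (labGraph vs adj).IsIndepSet (S : Set {x // x ∈ vs}) := by
  constructor
  · intro h a ha b hb hab hadj
    rw [lab_adj hs] at hadj
    have := h.2 a.1 (Finset.mem_map_of_mem _ ha) b.1 (Finset.mem_map_of_mem _ hb)
      (fun h' => hab (Subtype.ext h'))
    rw [this] at hadj
    simp at hadj
  · intro h
    refine ⟨fun x hx => ?_, fun x hx y hy hxy => ?_⟩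
    · obtain ⟨a, _, rfl⟩ := Finset.mem_map.1 hx
      exact a.2
    · obtain ⟨a, ha, rfl⟩ := Finset.mem_map.1 hx
      obtain ⟨b, hb, rfl⟩ := Finset.mem_map.1 hy
      by_contra hcon
      refine h ha hb (fun h' => hxy (by rw [h'])) ((lab_adj hs _ _).2 ⟨fun h' => hxy (by rw [h']), ?_⟩)
      simpa using hcon

/-- The set of vertices of a set of labels. -/
def toV (vs : List α) (S : Finset α) : Finset {x // x ∈ vs} := S.subtype (· ∈ vs)

theorem toV_map {S : Finset α} (h : ∀ x ∈ S, x ∈ vs) :
    (toV vs S).map (Function.Embedding.subtype _) = S := by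
  ext x
  simp only [toV, Finset.subtype_map, Finset.mem_filter]
  exact ⟨fun h => h.1, fun h' => ⟨h', h x h'⟩⟩

theorem maxL_map (hs : ∀ x y, adj x y = adj y x) {S : Finset {x // x ∈ vs}} :
    MaxL vs adj (S.map (Function.Embedding.subtype _)) ↔ IsMaxInd (labGraph vs adj) S := by
  unfold MaxL IsMaxInd
  rw [indL_map hs]
  refine and_congr_right fun _ => ?_
  constructor
  · intro h T hT
    have := h _ ((indL_map hs).2 hT)
    rwa [Finset.card_map, Finset.card_map] at this
  · intro h T hT
    rw [Finset.card_map]
    have h1 := toV_map hT.1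
    have h2 := h (toV vs T) (by rw [← indL_map hs, h1]; exact hT)
    rw [← h1, Finset.card_map]
    exact h2

theorem mem_core_lab (hs : ∀ x y, adj x y = adj y x) (x : {x // x ∈ vs}) :
    x ∈ core (labGraph vs adj) ↔ ∀ S, MaxL vs adj S → x.1 ∈ S := by
  constructor
  · intro h S hS
    have h1 := toV_map hS.1.1
    have h2 := h (toV vs S) (by rw [← maxL_map hs, h1]; exact hS)
    rw [← h1]
    exact Finset.mem_map_of_mem _ h2
  · intro h S hS
    exact (Finset.mem_map' (Function.Embedding.subtype _)).1 (h _ ((maxL_map hs).2 hS))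

end Lab

/-! ### Graphs in which only the empty set is critical -/

theorem nucleus_empty {V : Type} [Fintype V] {G : SimpleGraph V}
    (h : ∀ I : Finset V, G.IsIndepSet (I : Set V) → I.Nonempty → I.card < (nbhd G I).card) :
    nucleus G = ∅ := by
  have h0 : diff G ∅ = 0 := by
    unfold diff nbhd
    simp
  have hcrit : IsCritical G ∅ := by
    refine ⟨by simp [SimpleGraph.IsIndepSet], fun J hJ => ?_⟩
    rw [h0]
    rcases J.eq_empty_or_nonempty with rfl | hne
    · rw [h0]
    · have := h J hJ hne
      unfold diff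
      omega
  have hmax : IsMaxCritical G ∅ := by
    refine ⟨hcrit, fun J hJ => ?_⟩
    rcases J.eq_empty_or_nonempty with rfl | hne
    · exact le_rfl
    · exfalso
      have h1 := h J hJ.1 hne
      have h2 := hJ.2 ∅ (by simp [SimpleGraph.IsIndepSet])
      rw [h0] at h2
      unfold diff at h2
      omega
  ext v
  simp only [Set.mem_empty_iff_false, iff_false]
  intro hv
  have := hv ∅ hmax
  simp at this

end Pool.Agent.X248.Core
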