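import Pool.Agent.X248.Core.Corr
import Pool.Agent.X248.Core.Mem

/-!
# Core and nucleus: completeness for parallel access to `NP`
-/

set_option autoImplicit false

namespace Pool.Agent.X248.Core

open Pool.Agent.NPC Pool.Agent.H622R2
open Pool.Agent.Y650.TH (Cl OrDP HardTh InTheta2)

section PolyTime

variable {α : Type} [TEnc α]

theorem poly_litAt {χ : α → List Cl} {c j : α → ℕ} (h1 : Poly χ) (h2 : Poly c) (h3 : Poly j) :
    Poly (fun a => litAt (χ a) (c a) (j a)) := by
  unfold litAt
  fun_prop

attribute [local fun_prop] poly_litAt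

theorem poly_conf {χ : α → List Cl} {c j c' j' : α → ℕ} (h1 : Poly χ) (h2 : Poly c)
    (h3 : Poly j) (h4 : Poly c') (h5 : Poly j') :
    Poly (fun a => conf (χ a) (c a) (j a) (c' a) (j' a)) := by
  unfold conf
  fun_prop

theorem poly_form {ps : α → List (List Cl × List Cl)} {i τ : α → ℕ} (h1 : Poly ps)
    (h2 : Poly i) (h3 : Poly τ) : Poly (fun a => form (ps a) (i a) (τ a)) := by
  unfold form
  fun_prop

attribute [local fun_prop] poly_conf poly_form

theorem upoly_NN {ps : α → List (List Cl × List Cl)} {i : α → ℕ} (h1 : Poly ps)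
    (h2 : Poly i) : UPoly (fun a => NN (ps a) (i a)) := by
  unfold NN
  exact ((UPoly.length (by fun_prop)).add (UPoly.length (by fun_prop))).add (UPoly.const 2)

theorem upoly_slots {ps : α → List (List Cl × List Cl)} {i τ : α → ℕ} (h1 : Poly ps)
    (h2 : Poly i) (h3 : Poly τ) : UPoly (fun a => slots (ps a) (i a) (τ a)) := by
  refine UPoly.of_le (n := fun a => NN (ps a) (i a)) ?_ (upoly_NN h1 h2) fun a => ?_
  · have h := (upoly_NN h1 h2).toPoly
    unfold slots
    fun_prop
  · unfold slots
    split_ifs <;> omega

theorem upoly_width {ps : α → List (List Cl × List Cl)} {i τ c : α → ℕ} (h1 : Poly ps)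
    (h2 : Poly i) (h3 : Poly τ) (h4 : Poly c) :
    UPoly (fun a => width (ps a) (i a) (τ a) (c a)) := by
  refine UPoly.of_le (n := fun _ => 3) ?_ (UPoly.const 3) fun a => ?_
  · unfold width
    fun_prop
  · unfold width
    split_ifs <;> omega

theorem poly_base : Poly base := by
  unfold base
  refine Poly.flatMap (F := fun (ps : List (List Cl × List Cl)) i =>
    (List.range 4).flatMap fun τ => (List.range (slots ps i τ)).flatMap fun c =>
      (List.range (width ps i τ c)).map fun j => (i, τ, c, j))
    (UPoly.range (UPoly.length Poly.id)) ?_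
  refine Poly.flatMap (F := fun (p : List (List Cl × List Cl) × ℕ) τ =>
    (List.range (slots p.1 p.2 τ)).flatMap fun c =>
      (List.range (width p.1 p.2 τ c)).map fun j => (p.2, τ, c, j)) (NPC.Poly.const _) ?_
  refine Poly.flatMap (F := fun (p : (List (List Cl × List Cl) × ℕ) × ℕ) c =>
      (List.range (width p.1.1 p.1.2 p.2 c)).map fun j => (p.1.2, p.2, c, j))
    (UPoly.range (upoly_slots (by fun_prop) (by fun_prop) (by fun_prop))) ?_
  exact NPC.Poly.map (F := fun (p : ((List (List Cl × List Cl) × ℕ) × ℕ) × ℕ) j =>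
      (p.1.1.2, p.1.2, p.2, j))
    (UPoly.range (upoly_width (by fun_prop) (by fun_prop) (by fun_prop) (by fun_prop)))
    (by fun_prop)

theorem poly_labs : Poly labs := by
  unfold labs
  have h := poly_base
  refine Poly.append h ?_
  exact NPC.Poly.map (F := fun _ t => ((t, 4, 0, 0) : Lab))
    (UPoly.range ((UPoly.length h).add (UPoly.const 3))) (by fun_prop)

theorem poly_adjL : Poly (fun p : (List (List Cl × List Cl) × Lab) × Lab =>
    adjL p.1.1 p.1.2 p.2) := by
  unfold adjL
  fun_prop

/-- The reduction. -/
def red (ps : List (List Cl × List Cl)) : List (List Bool) := mat (labs ps) (adjL ps)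

theorem poly_red : Poly red := mat_poly poly_labs poly_adjL

end PolyTime

theorem red_correct (ps : List (List Cl × List Cl)) :
    ¬ OrDP ps ↔ core (matGraph (red ps)) = nucleus (matGraph (red ps)) := by
  rw [← core_eq_nucleus_iff]
  exact (core_eq_nucleus_map (matIso (labs ps) (adjL ps) labs_nodup)).symm

/-- **Hardness.** -/
theorem hardTh_core : HardTh
    (fun M : List (List Bool) => core (matGraph M) = nucleus (matGraph M)) :=
  hardTh_trans (hardTh_not Pool.Agent.Y620.TH.nf) poly_red red_correct

end Pool.Agent.X248.Core
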