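import Pool.Agent.X248.Core.Defs
import Pool.Agent.Y650.TH.Defs

/-!
# Core and nucleus: the graph of a list of pairs of formulas
-/

set_option autoImplicit false

namespace Pool.Agent.X248.Core

open Pool.Agent.NPC Pool.Agent.H622R2
open Pool.Agent.Y650.TH (Cl OrDP)

/-- Labels. -/
abbrev Lab := ℕ × ℕ × ℕ × ℕ

/-- The literal at a place. -/
def litAt (χ : List Cl) (c j : ℕ) : Option (Bool × ℕ) :=
  (χ[c]?).map fun cl => if j = 0 then cl.1 else if j = 1 then cl.2.1 else cl.2.2

/-- Two places hold contradictory literals. -/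
def conf (χ : List Cl) (c j c' j' : ℕ) : Bool :=
  (litAt χ c j).any fun l => (litAt χ c' j').any fun l' =>
    decide (l.2 = l'.2) && !decide (l.1 = l'.1)

/-- The formula of a component. -/
def form (ps : List (List Cl × List Cl)) (i τ : ℕ) : List Cl :=
  if τ = 0 then (ps.getD i ([], [])).1 else if τ = 3 then [] else (ps.getD i ([], [])).2

/-- The target size. -/
def NN (ps : List (List Cl × List Cl)) (i : ℕ) : ℕ :=
  (ps.getD i ([], [])).1.length + (ps.getD i ([], [])).2.length + 2

/-- The number of slots of a component. -/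
def slots (ps : List (List Cl × List Cl)) (i τ : ℕ) : ℕ :=
  if τ = 3 then NN ps i - 1 else NN ps i

/-- The number of vertices in a slot. -/
def width (ps : List (List Cl × List Cl)) (i τ c : ℕ) : ℕ :=
  if τ = 3 then 2 else if c < (form ps i τ).length then 3 else 1

/-- The labels of the components. -/
def base (ps : List (List Cl × List Cl)) : List Lab :=
  (List.range ps.length).flatMap fun i => (List.range 4).flatMap fun τ =>
    (List.range (slots ps i τ)).flatMap fun c => (List.range (width ps i τ c)).map fun j =>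
      (i, τ, c, j)

/-- All labels: the components and a large clique. -/
def labs (ps : List (List Cl × List Cl)) : List Lab :=
  base ps ++ (List.range ((base ps).length + 3)).map fun t => (t, 4, 0, 0)

/-- Adjacency. -/
def adjL (ps : List (List Cl × List Cl)) (x y : Lab) : Bool :=
  decide (x.2.1 = 4) || decide (y.2.1 = 4) || (decide (x.1 = y.1) &&
    (!decide (x.2.1 = y.2.1) || decide (x.2.2.1 = y.2.2.1) ||
      conf (form ps x.1 x.2.1) x.2.2.1 x.2.2.2 y.2.2.1 y.2.2.2))

variable {ps : List (List Cl × List Cl)}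

theorem conf_symm (χ : List Cl) (c j c' j' : ℕ) : conf χ c j c' j' = conf χ c' j' c j := by
  unfold conf
  rcases litAt χ c j with _ | l <;> rcases litAt χ c' j' with _ | l'
  · rfl
  · rfl
  · rfl
  · simp only [Option.any_some]
    rw [show decide (l.2 = l'.2) = decide (l'.2 = l.2) by rw [decide_eq_decide]; exact eq_comm,
      show decide (l.1 = l'.1) = decide (l'.1 = l.1) by rw [decide_eq_decide]; exact eq_comm]

theorem adjL_symm (x y : Lab) : adjL ps x y = adjL ps y x := by
  unfold adjL
  by_cases h : x.1 = y.1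
  · by_cases h2 : x.2.1 = y.2.1
    · rw [← h, ← h2, conf_symm]
      simp only [decide_true, Bool.true_and, Bool.not_true, Bool.false_or]
      rw [show decide (x.2.2.1 = y.2.2.1) = decide (y.2.2.1 = x.2.2.1) by
        rw [decide_eq_decide]; exact eq_comm]
    · have h3 : ¬ y.2.1 = x.2.1 := fun h' => h2 h'.symm
      simp only [h, h2, h3, decide_false, Bool.not_false, Bool.true_or, decide_true,
        Bool.true_and]
      rw [Bool.or_comm (decide (x.2.1 = 4))]
  · have h3 : ¬ y.1 = x.1 := fun h' => h h'.symm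
    simp only [h, h3, decide_false, Bool.false_and, Bool.or_false]
    rw [Bool.or_comm (decide (x.2.1 = 4))]

theorem mem_base {x : Lab} : x ∈ base ps ↔ x.1 < ps.length ∧ x.2.1 < 4 ∧
    x.2.2.1 < slots ps x.1 x.2.1 ∧ x.2.2.2 < width ps x.1 x.2.1 x.2.2.1 := by
  simp only [base, List.mem_flatMap, List.mem_range, List.mem_map]
  constructor
  · rintro ⟨i, hi, τ, hτ, c, hc, j, hj, rfl⟩
    exact ⟨hi, hτ, hc, hj⟩
  · rintro ⟨hi, hτ, hc, hj⟩
    exact ⟨_, hi, _, hτ, _, hc, _, hj, rfl⟩

theorem mem_labs {x : Lab} : x ∈ labs ps ↔ x ∈ base ps ∨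
    ∃ t < (base ps).length + 3, x = (t, 4, 0, 0) := by
  simp only [labs, List.mem_append, List.mem_map, List.mem_range]
  refine or_congr Iff.rfl ⟨?_, ?_⟩
  · rintro ⟨t, ht, rfl⟩; exact ⟨t, ht, rfl⟩
  · rintro ⟨t, ht, rfl⟩; exact ⟨t, ht, rfl⟩

theorem base_nodup : (base ps).Nodup := by
  unfold base
  refine nodup_flatMap_of (fun x : Lab => x.1) List.nodup_range (fun i _ => ?_) ?_
  · refine nodup_flatMap_of (fun x : Lab => x.2.1) List.nodup_range (fun τ _ => ?_) ?_
    · refine nodup_flatMap_of (fun x : Lab => x.2.2.1) List.nodup_range (fun c _ => ?_) ?_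
      · exact List.nodup_range.map (fun a b h => by simpa using h)
      · intro c _ x hx
        rw [List.mem_map] at hx
        obtain ⟨j, _, rfl⟩ := hx
        rfl
    · intro τ _ x hx
      simp only [List.mem_flatMap, List.mem_map] at hx
      obtain ⟨c, _, j, _, rfl⟩ := hx
      rfl
  · intro i _ x hx
    simp only [List.mem_flatMap, List.mem_map] at hx
    obtain ⟨τ, _, c, _, j, _, rfl⟩ := hx
    rfl

theorem labs_nodup : (labs ps).Nodup := by
  unfold labs
  rw [List.nodup_append]
  refine ⟨base_nodup, List.nodup_range.map (fun a b h => by simpa using h), ?_⟩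
  intro x hx y hy hxy
  subst hxy
  rw [List.mem_map] at hy
  obtain ⟨t, _, rfl⟩ := hy
  have := (mem_base.1 hx).2.1
  simp at this

theorem of_not_clique {x : Lab} (hx : x ∈ labs ps) (h : x.2.1 ≠ 4) : x ∈ base ps := by
  rcases mem_labs.1 hx with h1 | ⟨t, _, rfl⟩
  · exact h1
  · exact absurd rfl h

/-- Independent sets. -/
abbrev Ind (ps : List (List Cl × List Cl)) (S : Finset Lab) : Prop := IndL (labs ps) (adjL ps) S

/-- Maximum independent sets. -/
abbrev Max (ps : List (List Cl × List Cl)) (S : Finset Lab) : Prop := MaxL (labs ps) (adjL ps) S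

theorem ind_pair {S : Finset Lab} (hS : Ind ps S) {x y : Lab} (hx : x ∈ S) (hy : y ∈ S)
    (hne : x ≠ y) : x.2.1 ≠ 4 ∧ y.2.1 ≠ 4 ∧ (x.1 = y.1 → x.2.1 = y.2.1 ∧ x.2.2.1 ≠ y.2.2.1 ∧
      conf (form ps x.1 x.2.1) x.2.2.1 x.2.2.2 y.2.2.1 y.2.2.2 = false) := by
  have h := hS.2 x hx y hy hne
  unfold adjL at h
  simp only [Bool.or_eq_false_iff, decide_eq_false_iff_not, Bool.and_eq_false_iff,
    Bool.not_eq_false', decide_eq_true_eq] at h
  obtain ⟨⟨h1, h2⟩, h3⟩ := h
  refine ⟨h1, h2, fun h4 => ?_⟩
  rcases h3 with h3 | h3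
  · exact absurd h4 h3
  · exact ⟨h3.1.1, h3.1.2, h3.2⟩

theorem ind_of_pair {S : Finset Lab} (hmem : ∀ x ∈ S, x ∈ base ps)
    (h : ∀ x ∈ S, ∀ y ∈ S, x ≠ y → x.1 = y.1 → x.2.1 = y.2.1 ∧ x.2.2.1 ≠ y.2.2.1 ∧
      conf (form ps x.1 x.2.1) x.2.2.1 x.2.2.2 y.2.2.1 y.2.2.2 = false) : Ind ps S := by
  refine ⟨fun x hx => mem_labs.2 (Or.inl (hmem x hx)), fun x hx y hy hne => ?_⟩
  have h1 := (mem_base.1 (hmem x hx)).2.1
  have h2 := (mem_base.1 (hmem y hy)).2.1
  unfold adjL
  simp only [Bool.or_eq_false_iff, decide_eq_false_iff_not, Bool.and_eq_false_iff,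
    Bool.not_eq_false', decide_eq_true_eq]
  refine ⟨⟨by omega, by omega⟩, ?_⟩
  by_cases h4 : x.1 = y.1
  · right
    obtain ⟨h5, h6, h7⟩ := h x hx y hy hne h4
    exact ⟨⟨h5, h6⟩, h7⟩
  · exact Or.inl h4

theorem ind_cases {S : Finset Lab} (hS : Ind ps S) :
    (∃ x, x.2.1 = 4 ∧ S = {x}) ∨ ∀ x ∈ S, x ∈ base ps := by
  by_cases h : ∃ x ∈ S, x.2.1 = 4
  · left
    obtain ⟨x, hx, h4⟩ := h
    refine ⟨x, h4, ?_⟩
    ext y
    rw [Finset.mem_singleton]
    constructor
    · intro hy
      by_contra hne
      exact (ind_pair hS hx hy (fun h => hne h.symm)).1 h4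
    · rintro rfl
      exact hx
  · right
    push Not at h
    exact fun x hx => of_not_clique (hS.1 x hx) (h x hx)

/-- An independent set inside a component hits every slot at most once. -/
theorem card_le_of_slots {T : Finset Lab} (hT : Ind ps T) {i τ : ℕ}
    (hc : ∀ x ∈ T, x.1 = i ∧ x.2.1 = τ) (A : Finset ℕ) (hA : ∀ x ∈ T, x.2.2.1 ∈ A) :
    T.card ≤ A.card := by
  refine Finset.card_le_card_of_injOn (fun x => x.2.2.1) (fun x hx => hA x hx) ?_
  intro x hx y hy h
  by_contra hne
  have h1 := hc x hx
  have h2 := hc y hy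
  exact ((ind_pair hT hx hy hne).2.2 (h1.1.trans h2.1.symm)).2.1 h

theorem litAt_of_lt {χ : List Cl} {c j : ℕ} (hc : c < χ.length) : litAt χ c j =
    some (if j = 0 then χ[c].1 else if j = 1 then χ[c].2.1 else χ[c].2.2) := by
  unfold litAt
  rw [List.getElem?_eq_getElem hc]
  rfl

/-- A full independent set gives a satisfying assignment. -/
theorem sat_of_full {T : Finset Lab} (hT : Ind ps T) (hb : ∀ x ∈ T, x ∈ base ps) {i τ : ℕ}
    (h3 : τ ≠ 3) (hc : ∀ x ∈ T, x.1 = i ∧ x.2.1 = τ) (hle : (form ps i τ).length ≤ NN ps i)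
    (hcard : NN ps i ≤ T.card) : SAT3 (form ps i τ) := by
  classical
  -- every slot is hit
  have hA : ∀ x ∈ T, x.2.2.1 ∈ Finset.range (NN ps i) := by
    intro x hx
    have h1 := (mem_base.1 (hb x hx)).2.2.1
    rw [(hc x hx).1, (hc x hx).2] at h1
    unfold slots at h1
    rw [if_neg h3] at h1
    exact Finset.mem_range.2 h1
  have hhit : ∀ c < NN ps i, ∃ x ∈ T, x.2.2.1 = c := by
    by_contra hcon
    push Not at hcon
    obtain ⟨c, hcN, hno⟩ := hcon
    have h1 := card_le_of_slots hT hc ((Finset.range (NN ps i)).erase c) (fun x hx =>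
      Finset.mem_erase.2 ⟨hno x hx, hA x hx⟩)
    rw [Finset.card_erase_of_mem (Finset.mem_range.2 hcN), Finset.card_range] at h1
    omega
  choose! X hX hXc using hhit
  -- the literal chosen in a clause
  let L : ℕ → Bool × ℕ := fun c => (litAt (form ps i τ) c (X c).2.2.2).getD (true, 0)
  have hL : ∀ c < (form ps i τ).length, litAt (form ps i τ) c (X c).2.2.2 = some (L c) := by
    intro c hcl
    simp only [L]
    rw [litAt_of_lt hcl]
    rfl
  have hcons : ∀ c < (form ps i τ).length, ∀ c' < (form ps i τ).length,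
      (L c).2 = (L c').2 → (L c).1 = (L c').1 := by
    intro c h1 c' h2 h
    by_contra hne
    have hX1 := hX c (by omega)
    have hX2 := hX c' (by omega)
    have hne' : X c ≠ X c' := by
      intro h'
      have : c = c' := by rw [← hXc c (by omega), ← hXc c' (by omega), h']
      rw [this] at hne
      exact hne rfl
    have h4 := ((ind_pair hT hX1 hX2 hne').2.2
      ((hc _ hX1).1.trans (hc _ hX2).1.symm)).2.2
    rw [(hc _ hX1).1, (hc _ hX1).2, hXc c (by omega), hXc c' (by omega)] at h4
    unfold conf at h4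
    rw [hL c h1, hL c' h2] at h4
    simp only [Option.any_some, Bool.and_eq_false_iff, decide_eq_false_iff_not,
      Bool.not_eq_false', decide_eq_true_eq] at h4
    rcases h4 with h4 | h4
    · exact h4 h
    · exact hne h4
  refine ⟨fun v => decide (∃ c < (form ps i τ).length, L c = (true, v)), ?_⟩
  intro cl hcl
  obtain ⟨c, hclt, rfl⟩ := List.getElem_of_mem hcl
  have key : (fun v => decide (∃ c < (form ps i τ).length, L c = (true, v))) (L c).2 =
      (L c).1 := by
    simp only
    by_cases h : (L c).1 = true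
    · rw [h, decide_eq_true_eq]
      exact ⟨c, hclt, Prod.ext h rfl⟩
    · rw [Bool.not_eq_true] at h
      rw [h, decide_eq_false_iff_not]
      rintro ⟨c', h1, h2⟩
      have := hcons c hclt c' h1 (by rw [h2])
      rw [h, h2] at this
      exact absurd this (by simp)
  have h5 := hL c hclt
  rw [litAt_of_lt hclt, Option.some.injEq] at h5
  rw [← h5] at key
  by_cases hj : (X c).2.2.2 = 0
  · left
    rw [if_pos hj] at key
    exact key
  · rw [if_neg hj] at key
    by_cases hj : (X c).2.2.2 = 1
    · right; left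
      rw [if_pos hj] at key
      exact key
    · right; right
      rw [if_neg hj] at key
      exact key

/-- A satisfying assignment gives a full independent set. -/
theorem full_of_sat {i τ : ℕ} (hi : i < ps.length) (hτ : τ < 3) (hs : SAT3 (form ps i τ)) :
    ∃ T : Finset Lab, Ind ps T ∧ (∀ x ∈ T, x.1 = i ∧ x.2.1 = τ) ∧ T.card = NN ps i := by
  classical
  obtain ⟨σ, hσ⟩ := hs
  have hex : ∀ c, ∃ j, j < width ps i τ c ∧ ∀ l, litAt (form ps i τ) c j = some l →
      σ l.2 = l.1 := by
    intro c
    by_cases hc : c < (form ps i τ).length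
    · have hw : width ps i τ c = 3 := by
        unfold width
        rw [if_neg (by omega), if_pos hc]
      rcases hσ _ (List.getElem_mem hc) with h | h | h
      · refine ⟨0, by omega, fun l hl => ?_⟩
        rw [litAt_of_lt hc] at hl
        simp only [if_true, Option.some.injEq] at hl
        rw [← hl]; exact h
      · refine ⟨1, by omega, fun l hl => ?_⟩
        rw [litAt_of_lt hc] at hl
        simp only [one_ne_zero, if_false, if_true, Option.some.injEq] at hl
        rw [← hl]; exact h
      · refine ⟨2, by omega, fun l hl => ?_⟩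
        rw [litAt_of_lt hc] at hl
        simp only [OfNat.ofNat_ne_zero, OfNat.ofNat_ne_one, if_false, Option.some.injEq] at hl
        rw [← hl]; exact h
    · have hw : width ps i τ c = 1 := by
        unfold width
        rw [if_neg (by omega), if_neg hc]
      refine ⟨0, by omega, fun l hl => ?_⟩
      unfold litAt at hl
      rw [List.getElem?_eq_none (by omega)] at hl
      simp at hl
  choose f hf hfs using hex
  have hinj : Function.Injective (fun c : ℕ => ((i, τ, c, f c) : Lab)) := by
    intro a b h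
    simp only [Prod.mk.injEq, true_and] at h
    exact h.1
  refine ⟨(Finset.range (NN ps i)).image (fun c => (i, τ, c, f c)), ?_, ?_, ?_⟩
  · refine ind_of_pair ?_ ?_
    · intro x hx
      obtain ⟨c, hc, rfl⟩ := Finset.mem_image.1 hx
      rw [Finset.mem_range] at hc
      rw [mem_base]
      refine ⟨hi, by simp only; omega, ?_, hf c⟩
      simp only [slots]
      rw [if_neg (by omega)]
      exact hc
    · intro x hx y hy hne _
      obtain ⟨c, hc, rfl⟩ := Finset.mem_image.1 hx
      obtain ⟨c', hc', rfl⟩ := Finset.mem_image.1 hy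
      refine ⟨rfl, fun h => hne (by simp only at h; rw [h]), ?_⟩
      simp only [conf]
      cases h1 : litAt (form ps i τ) c (f c) with
      | none => rfl
      | some l =>
        cases h2 : litAt (form ps i τ) c' (f c') with
        | none => rfl
        | some l' =>
          simp only [Option.any_some, Bool.and_eq_false_iff, decide_eq_false_iff_not,
            Bool.not_eq_false', decide_eq_true_eq]
          by_cases h3 : l.2 = l'.2
          · right
            rw [← hfs c l h1, ← hfs c' l' h2, h3]
          · exact Or.inl h3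
  · intro x hx
    obtain ⟨c, _, rfl⟩ := Finset.mem_image.1 hx
    exact ⟨rfl, rfl⟩
  · rw [Finset.card_image_of_injective _ hinj, Finset.card_range]

/-- Replacing the part of an independent set in a block. -/
theorem swap {S T : Finset Lab} (hS : Ind ps S) (hb : ∀ x ∈ S, x ∈ base ps) (hT : Ind ps T)
    {i : ℕ} (hTi : ∀ x ∈ T, x.1 = i) (hTb : ∀ x ∈ T, x ∈ base ps) :
    Ind ps (S.filter (fun x => x.1 ≠ i) ∪ T) ∧
    (S.filter (fun x => x.1 ≠ i) ∪ T).card + (S.filter (fun x => x.1 = i)).card =
      S.card + T.card := by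
  classical
  constructor
  · refine ind_of_pair ?_ ?_
    · intro x hx
      rcases Finset.mem_union.1 hx with h | h
      · exact hb x (Finset.mem_filter.1 h).1
      · exact hTb x h
    · intro x hx y hy hne heq
      rcases Finset.mem_union.1 hx with h | h <;> rcases Finset.mem_union.1 hy with h' | h'
      · exact (ind_pair hS (Finset.mem_filter.1 h).1 (Finset.mem_filter.1 h').1 hne).2.2 heq
      · exact absurd (heq.trans (hTi y h')) (Finset.mem_filter.1 h).2
      · exact absurd (heq.symm.trans (hTi x h)) (Finset.mem_filter.1 h').2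
      · exact (ind_pair hT h h' hne).2.2 heq
  · rw [Finset.card_union_of_disjoint]
    · have h1 := Finset.card_filter_add_card_filter_not (s := S) (fun x : Lab => x.1 = i)
      have h2 : S.filter (fun x : Lab => ¬ x.1 = i) = S.filter (fun x => x.1 ≠ i) := rfl
      rw [h2] at h1
      omega
    · rw [Finset.disjoint_left]
      intro x hx hx'
      exact (Finset.mem_filter.1 hx).2 (hTi x hx')

end Pool.Agent.X248.Core
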